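import Pool.Agent.H61.KV.TS

/-!
# Kuiper board KV, module GCT
-/

open Topology Set
open Pool.Agent.H59 Pool.Agent.H64.LB Pool.Agent.H61.KU
open scoped unitInterval

namespace Pool.Agent.H3.KV

open Pool.Agent.H61.KV

theorem pf_GCT (h1 : T_POS) : T_GCT := by
  intro C g hC hlow
  have hmem : ∀ b ∈ interior (Bs C), (g b, b) ∈ C := by
    intro b hb
    rw [hlow b hb (g b), sub_self]
    exact hC.zero
  have hcvx : Convex ℝ (Bs C) := by
    rintro b ⟨a, ha⟩ b' ⟨a', ha'⟩ s t hs ht _
    exact ⟨s • a + t • a', hC.add _ (hC.smul s hs _ ha) _ (hC.smul t ht _ ha')⟩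
  have hint : Convex ℝ (interior (Bs C)) := hcvx.interior
  have hcon : ∀ z : E4, Pz C z → ContinuousOn (fun b => inner ℝ z (g b)) (interior (Bs C)) := by
    intro z hz
    refine ConvexOn.continuousOn isOpen_interior ⟨hint, ?_⟩
    intro b hb b' hb' s t hs ht hst
    have ha : (s • g b + t • g b', s • b + t • b') ∈ C :=
      hC.add _ (hC.smul s hs _ (hmem b hb)) _ (hC.smul t ht _ (hmem b' hb'))
    have hb2 := (hlow _ (hint hb hb' hs ht hst) _).mp ha
    have hc : 0 ≤ inner ℝ z (s • g b + t • g b' - g (s • b + t • b')) := by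
      by_cases h0 : s • g b + t • g b' - g (s • b + t • b') = 0
      · rw [h0, inner_zero_right]
      · exact (hz _ hb2 h0).le
    rw [inner_sub_right, inner_add_right, inner_smul_right, inner_smul_right] at hc
    simp only [smul_eq_mul]
    linarith
  obtain ⟨z, hz, hz0⟩ := (h1 C hC).2.1
  let Λ : E4 →ₗ[ℝ] (Fin 5 → ℝ) := LinearMap.pi (fun i => (innerₛₗ ℝ (z i)))
  have hΛ : ∀ a i, Λ a i = inner ℝ (z i) a := fun a i => rfl
  have hinj : LinearMap.ker Λ = ⊥ := by
    rw [LinearMap.ker_eq_bot']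
    intro a ha
    apply hz0
    intro i
    rw [← hΛ, ha]
    rfl
  obtain ⟨M, hM⟩ := Λ.exists_leftInverse_of_injective hinj
  have hMc : Continuous M := LinearMap.continuous_of_finiteDimensional M
  have hg : g = fun b => M (fun i => inner ℝ (z i) (g b)) := by
    funext b
    have ha := LinearMap.congr_fun hM (g b)
    exact ha.symm
  rw [hg]
  exact hMc.comp_continuousOn (continuousOn_pi.mpr fun i => hcon (z i) (hz i))

end Pool.Agent.H3.KV
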