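import Pool.Agent.H61.KV.TS

/-!
# Kuiper board KV, module STM
-/

open Topology Set
open Pool.Agent.H59 Pool.Agent.H64.LB Pool.Agent.H61.KU
open scoped unitInterval

namespace Pool.Agent.H3.KV

open Pool.Agent.H61.KV

theorem pf_STM (h1 : T_FCB) (h2 : T_FTU) (h3 : T_CNC) (h4 : T_MNS) (h5 : T_B2N) : T_STM := by
  intro V _ _ _ m hm p hp q g hF
  have hC : IsCC (Cn m) := (h3 V m hm).1
  obtain ⟨hgC, -, hgg⟩ := (h2 V (Cn m) p hC hp.1).1 q g hF
  obtain ⟨e, he⟩ := hC.pos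
  have hpt : ∀ r ∈ Cn m, -r ∈ Cn m → r = 0 := by
    intro r hr hr'
    by_contra h0
    have ha := he r hr h0
    have hb := he (-r) hr' (neg_ne_zero.mpr h0)
    rw [map_neg] at hb
    linarith
  have hone : ∀ r ∈ Fc (Cn m) g, r ∈ Fc (Cn m) p → r = 0 := by
    rintro r ⟨hr, c, hc, hcr⟩ hrp
    rcases hc.eq_or_lt with hc0 | hc0
    · rw [← hc0, zero_smul, zero_sub] at hcr
      exact hpt r hr hcr
    · have ha : g - c⁻¹ • r ∈ Cn m := by
        have hb := hC.smul c⁻¹ (inv_nonneg.mpr hc) _ hcr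
        rwa [smul_sub, smul_smul, inv_mul_cancel₀ hc0.ne', one_smul] at hb
      have hb : (g - c⁻¹ • r) - g ∈ Sp (Cn m) p := by
        have hd : (g - c⁻¹ • r) - g = (-c⁻¹) • r := by
          rw [neg_smul]
          abel
        rw [hd]
        exact Submodule.smul_mem _ _ (Submodule.subset_span hrp)
      have hd := ((hgg (g - c⁻¹ • r)).mp ⟨ha, hb⟩).1
      have hf := hC.smul c hc _ hd
      have hg : c • (g - c⁻¹ • r - g) = -r := by
        rw [sub_sub_cancel_left, smul_neg, smul_smul, mul_inv_cancel₀ hc0.ne', one_smul]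
      rw [hg] at hf
      exact hpt r hr hf
  have hthree : Fc (Cn m) g ⊆ Mh m := by
    intro q' hq'
    by_contra hn
    have hq'C : q' ∈ Cn m := hq'.1
    have ha : ¬ Fc (Cn m) q' ⊆ Mh m := fun hs => hn (hs (h1 V (Cn m) q' hC hq'C).1)
    obtain ⟨p1, hp1, hp1'⟩ := h4 V m hm q' hq'C ha
    obtain ⟨q1, hq1, hq1', hq1''⟩ := h5 V m hm p1 p hp1' hp
    have hb : q1 ∈ Fc (Cn m) q' := (h1 V (Cn m) q' hC hq'C).2.2.2.1 p1 hp1 hq1'
    have hd : q1 ∈ Fc (Cn m) g := (h1 V (Cn m) g hC hgC).2.2.2.1 q' hq' hb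
    exact hq1 (hone q1 hd hq1'')
  exact ⟨hone, hthree (h1 V (Cn m) g hC hgC).1, hthree⟩

end Pool.Agent.H3.KV
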